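import Pool.Agent.K4H62.VA.Cls

/-!
# The Lang-Vojta conjecture for affine curves: relatively hyperbolic morphisms of any dimension

`k` is an algebraically closed field of characteristic zero. A dominant morphism `X → Y` of affine
varieties satisfies the **relative height inequality** (`RelativeBound`) if there is a proper closed
subset `Z` of `X` such that for all morphisms `f : C → X` from smooth affine curves of genus `g` with
`s` points at infinity, with image not in `Z`, `deg f ≤ A (max (2 g - 2 + s, 0) + deg (C → Y))`, where
`A` does not depend on `C` and `f`. (If `C` is mapped to a point of `Y`, this is a bound in the fibre of
this point, uniform in the fibres.)

* (1) It holds for the following class `Hyperbolic` of dominant morphisms `X → Y`: the smallest class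
  which is stable under compositions, joins (closed subvarieties of the fibre product `X1 ×_Y X2` with
  dominant projections) and correspondences (`X → Y` is in the class if `X' → Y'` is in the class, and a
  component of the geometric generic fibre of `X → Y` has a finite etale covering with a generically
  finite, dominant map to a component of the geometric generic fibre of `X' → Y'`), and contains
  - the morphisms which are finite over the generic point of `Y`;
  - the fibrations in hyperbolic affine curves (`Fibration`, see `K4H62/HF/Defs.lean`);
  - all `X → Y`, of any relative dimension, such that the geometric generic fibre has a finite etale
    covering `V` with a generically finite map to a subvariety of log general type of a torus, for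
    example the families of complements of hyperplane arrangements which vary with the points of `Y`;
    or, more generally (`MFibration`), a generically finite rational map to a subvariety of a torus
    such that no one-parameter subgroup of the torus stabilizes all its equations `∑ f_e u ^ e = 0`
    in which the exponents of those functions `u i` which are not units on `V` are divisible by a
    number `n ≥ (l - 1) ^ 2`, where `l` is the number of the monomials. This includes families of
    complete and affine varieties of Fermat type and many of their subvarieties, and of ramified
    coverings `y ^ n = ∑ f_e u ^ e` of tori, with coefficients which vary with the points of `Y`.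
* (2) If `X → Y` satisfies it, then the Lang-Vojta conjecture for `Y` (with a linear function `β`, or
  with functions `β` of any shape) implies the one for `X`. So does, for an affine variety `X` and
  a rational map from `X` to a variety `Y`, a linear bound for the degrees `deg (C → Y)` of those maps
  which come from maps from curves to `X`; for example, for a projective variety `Y`, a linear bound
  for the degrees of the maps from projective curves to `Y`.
* (3) So the Lang-Vojta conjecture holds, with linear functions `β`, for the smallest class `Variety`
  of affine varieties which contains the point and is stable under joins, correspondences, morphisms in
  the class `Hyperbolic` to varieties in the class, and rational maps, which are such morphisms over an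
  open subset, to products of orbifold curves `Y j` of positive orbifold canonical degree
  `2 g - 2 + ∑ (1 - 1 / m c)`, where `m c` is the smallest multiplicity of a component of the fibre of
  `X` over `c` (infinite, if there is no such component), in the sense of Campana. For example for all
  affine surfaces of log general type which are fibred over an orbifold curve of positive orbifold
  canonical degree, for all towers of fibrations as in (1), and for the varieties with finite etale
  coverings of these kinds.

## The definitions

They are in `Pool/Agent/K4H62/HF/Defs.lean`, `Pool/Agent/K4H62/HF/TDefs.lean`,
`Pool/Agent/K4H62/VA/Defs.lean`, `Pool/Agent/K4H62/VA/OrbDefs.lean` and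
`Pool/Agent/K4H62/VA/ClDefs.lean`. `IntOver B Ω w`: the function `w` is regular on `V`; `Equation`, `MonomialMap`: the
equations and the maps in (1); `EtaleOver`, `Covering`: the finite etale coverings `V` of (the normalization
of) a component of the fibre of `X` over `Spec Ω → Y`, where `Ω` is algebraic over the field of
functions of `Y`; `Correspondence`: as in (1); `Dominant`: dominant morphisms of affine varieties;
`Joins`: the joins; `Chart k R B0 B`: `Spec B` is the preimage in `X = Spec R` of an affine open
subset `Spec B0` of (the closure of the image of `X` in) `Y`; `OrbifoldCurve`, `FromCurve`,
`OrbifoldBase`: as in (3); `BoundedBase`: as in (2); `LangVojta`,
`DegreeBound`: the conjecture for an affine variety, with linear functions `β` and with functions of any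
shape. `hgt k f` is the degree of a function `f` on the curve with function field `E`; `canDeg k E` is
`2 g - 2`.

## The proof

(a) A curve `C → X` is lifted to `V`, after a specialization of the constants in `Ω` and of the
covering. This gives coverings `C' → C` of bounded degree, with ramification over the points of `C` at
infinity and over at most `A deg (C → Y)` further points. (b) In the case of a monomial map, all
equations of `V` are sums of minimal ones, of which finitely many have exponents whose differences
span, since there is no one-parameter subgroup which stabilizes all equations. Their specializations
to `C'` are equations between functions whose orders outside of the points at infinity are divisible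
by `n`, without vanishing subsums, so that the theorem on such equations (Brownawell, Masser, Voloch)
bounds the heights of the quotients of the monomials. (c) Riemann-Hurwitz for orbifold curves.
-/

set_option autoImplicit false
set_option linter.overlappingInstances false

open FF Pool.Agent.W603.LV Pool.Agent.K4H62.HF Pool.Agent.K4H62.VA

namespace Pool.Agent.Results.MP_70ba79_ag.HyperbolicMorphisms

theorem result {k : Type} [Field k] [IsAlgClosed k] [CharZero k] :
    -- (1) the relative height inequality for the class of morphisms
    (∀ (B0 B : Type) [CommRing B0] [CommRing B] [Algebra k B0] [Algebra k B] [Algebra B0 B],
      Hyperbolic k B0 B → RelativeBound k B0 B) ∧
    -- (2) if it holds for `X = Spec B → Y = Spec B0`, then the Lang-Vojta conjecture for `Y` implies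
    -- the one for `X`; for a rational map from `X = Spec R` to `Y`, with the preimage `Spec B` of
    -- `Spec B0`, it is enough that the degrees of the maps `C → X → Y` are bounded
    (∀ (B0 B : Type) [CommRing B0] [CommRing B] [Algebra k B0] [Algebra k B] [Algebra B0 B],
      Dominant k B0 B → RelativeBound k B0 B →
        (LangVojta k B0 → LangVojta k B) ∧ (DegreeBound k B0 → DegreeBound k B) ∧
        ∀ (R : Type) [CommRing R] [Algebra k R] [Algebra R B] [IsScalarTower k R B],
          Chart k R B0 B → BoundedBase k R B0 B → LangVojta k R) ∧
    -- (3) the Lang-Vojta conjecture for the class of varieties
    ∀ (R : Type) [CommRing R] [Algebra k R], Variety k R → LangVojta k R :=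
  ⟨fun _ _ _ _ _ _ _ h => (hyp h).2,
    fun _ _ _ _ _ _ _ d h => ⟨fun h0 => affine_rel d h h0, fun h0 => affine_deg d h h0,
      fun _ _ _ _ _ hc h0 => base_rel d h hc h0⟩,
    fun _ _ _ h => variety h⟩

end Pool.Agent.Results.MP_70ba79_ag.HyperbolicMorphisms
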