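import Pool.Agent.K4H65.DM.LogMain

/-!
MP_70ba79_ag, Q1: the Lang-Vojta conjecture for affine curves in the affine varieties which are
dominated, with degree at most `r`, by varieties with multiple fibres, and fibres at infinity, over
projective lines.

`k` is an algebraically closed field of characteristic zero, and `V` is a closed subset of
`P^N × P^1 × ... × P^1` (`n` lines). For finite sets `B p`, `A p` of points of the `p`-th line, let
`V°` be the complement in `V` of the fibres over the points of the sets `B p` (the fibres at
infinity). The arcs in `V°` which are not contained in a given closed subset `R = 0` meet the fibre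
over `c ∈ A p` with contact order `0`, `∞` or at least `m p c` (`MultipleFibresOff`). The numbers of
points and the multiplicities are large with respect to `r` (`WideOff`): for all `g, s ≥ 1` with
`g s ≤ r` and all lines `|B p| + ∑ (1 - 1 / ⌈m p c / g⌉) > 2 s`. This holds for instance if
`|B p| > 2 r`, or if `m p c > r` for all `c` and `∑ (1 - 1 / m p c) > 2 r` (`wideOff_example`, `wideOff_example'`).

`X` is any affine variety, with the coordinate functions `x`, for which there are an affine variety
`W` with a dominant generically finite morphism `W → X` of degree at most `r` and a rational map
`W ⇢ V`, with image not contained in `R = 0`, such that `W ⇢ P^1 × ... × P^1` is generically finite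
onto its image, and such that the functions `1 / (t p - c)`, `c ∈ B p`, on `W` are integral over the
coordinate ring of `X` (`OffBoundary`; this holds if `W → X` is finite and `W` is mapped to `V°`).
Then

* `X` is of log general type;
* there are a proper closed subset of `X` and a number `C` such that, for all smooth affine curves
  of genus `g` with `s` points at infinity and all morphisms to `X` with image not contained in this
  closed subset, the degree is at most `C max (2 g - 2 + s, 0)` (`LangVojtaBound`).

`X` may have singularities, and the map `W → X` is not assumed to be Galois or related to the maps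
to the lines. The normalization of an affine curve in `X` in the function field of `W` is a covering
of degree at most `r`, with an unbounded number of branch points.
-/

set_option autoImplicit false

open FF

namespace Pool.Agent.Results.MP_70ba79_ag.MultipleFibreImages

open Pool.Agent.K4H65.DM
open Pool.Agent.W602.GT (LogGeneralType)

/-- **The Lang-Vojta conjecture for the affine varieties dominated by varieties with multiple
fibres and fibres at infinity.** `K'` is the function field of `W`, and `L` the one of `X`; `(a, b)`
are the homogeneous coordinates of the image of the generic point of `W` in `V`, and `x` are the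
coordinate functions of `X`, in its function field. The places which are not regular at some `x j`
are those without centre on `X`. -/
theorem result {k : Type} [Field k] [IsAlgClosed k] [CharZero k] {N n r : ℕ}
    (V : ProdSet k N n) (R : MPoly k N n) (hRh : MHom R)
    (B A : Fin n → Finset k) (m : Fin n → k → ℕ) (hV : MultipleFibresOff V R B A m)
    (hwide : ∀ p, WideOff r (B p) (A p) (m p))
    {K' L : Type} [Field K'] [Field L] [Algebra k K'] [Algebra k L] [Algebra L K']
    [IsScalarTower k L K'] [FiniteDimensional L K'] (hr : Module.finrank L K' ≤ r)
    (a : Fin (N + 1) → K') (b : Fin n → Fin 2 → K') (hab : V.Mem a b)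
    (hR : MvPolynomial.aeval (Sum.elim a fun v => b v.1 v.2) R ≠ 0)
    (halg : Algebra.IsAlgebraic (IntermediateField.adjoin k
      (Set.range fun p => b p 0 / b p 1)) K')
    {M : ℕ} (x : Fin M → L) (hgen : IntermediateField.adjoin k (Set.range x) = ⊤)
    (hint : OffBoundary (fun j => algebraMap L K' (x j)) b B) :
    (∀ w : ℕ, Algebra.trdeg k L = w → LogGeneralType k L w (fun P => ∃ j, ¬ P.Reg (x j))) ∧
      LangVojtaBound k x :=
  ⟨fun _ htr => log_gt hRh hV hwide hr hab hR halg hint htr,
    lang_vojta hRh hV hwide hr hab hR halg hint hgen⟩

/-- The condition on the numbers of points and the multiplicities, if there are more than `2 r`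
fibres at infinity over each line. -/
theorem wideOff_example {k : Type} [Field k] {r : ℕ} {B : Finset k} {m : k → ℕ}
    (h : 2 * r < B.card) : WideOff r B ∅ m := by
  refine ⟨by simp, by simp, fun g s hg hs hgs => ?_⟩
  have h3 : s ≤ r := by nlinarith
  have h4 : ((2 * s : ℕ) : ℝ) < B.card := by exact_mod_cast (by omega : 2 * s < B.card)
  push_cast at h4
  simpa using h4

/-- The condition on the numbers of points and the multiplicities, if there are no fibres at
infinity and all multiplicities are larger than `r`. -/
theorem wideOff_example' {k : Type} [Field k] {r : ℕ} {S : Finset k} {m : k → ℕ}
    (h1 : ∀ c ∈ S, r < m c) (h2 : 2 * (r : ℝ) < ∑ c ∈ S, (1 - 1 / (m c : ℝ))) :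
    WideOff r ∅ S m := by
  obtain ⟨h3, h4⟩ := wide_of h1 h2
  refine ⟨by simp, h3, fun g s hg hs hgs => ?_⟩
  simpa using h4 g s hg hs hgs

end Pool.Agent.Results.MP_70ba79_ag.MultipleFibreImages
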