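import Pool.Agent.K4H25.MG.F
/-!
MP_70ba79_ag, Q1: the Lang-Vojta conjecture for the quotients of products of open curves by finite
groups.

Let `C 0, ..., C (n - 1)` be smooth projective curves over an algebraically closed field `k` of
characteristic zero, and let `G` be a finite group of automorphisms of `C 0 × ... × C (n - 1)` which
preserves the factors (it acts on each curve `C i`, not necessarily faithfully). Put
`B i = C i / G`, let `S i` be a finite set of points of `B i` (the points at infinity), and `U i` the
part of `C i` over `B i - S i`. The quotients `(U 0 × ... × U (n - 1)) / G` are exactly the finite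
coverings of products of open curves `B i - S i` which are branched only over fibres of the
projections. In general they have many singularities, and the curves `B i - S i` are not hyperbolic,
for instance affine lines. We give a numerical criterion, on the local monodromy, under which the
conjecture of Lang and Vojta is true for all affine varieties `X` with a generically finite dominant
morphism to `(U 0 × ... × U (n - 1)) / G` (or a morphism from the normalization of `X`).

The criterion (`LogCriterion`). For a point `w` of `C i` over `p ∈ B i` with the ramification index `r`
let `γ w` be the generator of its stabilizer in the group of `C i` over `B i` which rotates the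
tangent line by `exp (2 π i / r)`. There are weights `α i > 0` and `δ i p ≤ 1` (which may be negative,
almost all of them zero) for the points `p` of the curves `B i` such that
* the degree of `K + ∑ p, δ i p · p` on `B i` is positive for all `i`;
* if `(γ (w 0) ^ k 0, ..., γ (w (n - 1)) ^ k (n - 1))` is in `G`, for points `w i` of `U i` over `p i` and
  integers `k i ≥ 1`, then `∑ i, α i * k i * (1 - δ i (p i)) ≥ ∑ i, α i`.
(In terms of an element `g` of order `N` which rotates `C i` at `w i` by `ζ ^ c i`, `c i ≥ 1`, for a
primitive `N`-th root of unity `ζ`, this is `∑ i, α i * r i * (1 - δ i (p i)) * c i ≥ (∑ i, α i) * N`;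
this is how the criterion is stated below.) There is no condition at infinity, where the best choice
is `δ i p = 1`. For instance, for the affine varieties `w ^ m = f 0 (x 0) * ... * f (n - 1) (x (n - 1))`
with polynomials `f i` without multiple roots and `2 ≤ n < m` the criterion is true, with `α i = 1`
and `δ i p = 1 - n / m` at the roots of `f i`, if `(1 - n / m) * deg (f i) > 1` for all `i`; all the
curves `B i - S i` are affine lines here.

**Theorem.** Under this condition `X` is of log general type, and there are a proper closed subset of
`X` and a constant `A` such that, for all smooth affine curves `D - Σ` of genus `g` with `s` points at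
infinity and all morphisms `f` to `X` with image not contained in this closed subset,
`deg f ≤ A * max (2 g - 2 + s) 0`.

Proof. Let `E` be the function field of `D`. For a suitable finite Galois extension `N` of `E` with
group `Γ` the map `D - Σ → (U 0 × ... × U (n - 1)) / G` comes from embeddings `ι i` of the function
fields of the curves `C i` in `N`, for the indices `i` in a subset `I` (the other coordinates are
constant), and every `σ ∈ Γ` acts on them as some `g ∈ G`, which is trivial on `C i` for `i ∉ I`.
At a place of `N` over a point `z` of `D - Σ` with ramification index `e` the inertia group is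
generated by an element `σ` which acts as the rotation by a primitive `e`-th root of unity `η`, so
`g` rotates the curves `C i` by `η ^ f i`, where `f i` is the index of the place over `C i`. So the
criterion for `g` says that `∑_{i ∈ I} α i * k i * (1 - δ i (p i)) ≥ ∑_{i ∈ I} α i` where `k i` is the
multiplicity of `D → B i` at `z` and `p i` the image of `z`. The sum over all points `z` and the
formulas of Riemann and Hurwitz for the maps `D → B i` give
`∑_{i ∈ I} α i * deg (D → B i) * deg (K + δ i) ≤ (∑_{i ∈ I} α i) * (2 g - 2 + s)`.
The degree of `f` is bounded linearly by the degrees of `D → B i` (heights of algebraic elements).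
For the log general type, the products of the pull-backs of pluricanonical forms on the `B i` with
logarithmic poles of the orders `max (δ i) 0` are regular on `X` and logarithmic at infinity.
-/

set_option autoImplicit false
set_option linter.overlappingInstances false
set_option maxHeartbeats 4000000
set_option synthInstance.maxHeartbeats 400000

open FF IntermediateField

namespace Pool.Agent.Results.MP_70ba79_ag.OpenProductQuotients

open Pool.Agent.W602.GT (LogGeneralType)
open Pool.Agent.W603.LV (canDeg Ge)
open Pool.Agent.W619.PL (LiesOver)
open Pool.Agent.K4H65.DM (LangVojtaBound)

variable {k : Type} [Field k] {M : Type} [Field M] [Algebra k M] {n : ℕ}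

/-- The automorphism `g` fixes the point (the place) `w` of the curve with the function field `C` and
acts on the cotangent line as `θ`: `g t = θ t + (higher order)` for the local parameters `t`. -/
def Rotates (C : IntermediateField k M) (g : M ≃ₐ[k] M) (w : Place k C) (θ : k) : Prop :=
  ∀ t z : C, w.ord t = 1 → g t = z → Ge w 2 (z - algebraMap k C θ * t)

/-- **The criterion** for the group `G` which acts on the product of the curves with the function
fields `C i`, with the finite sets `S i` of points at infinity, the weights `α i` and `δ i p`, `p` a
point of the curve `C i / G` (a place of its function field `C i ⊓ fixedField G`); `canDeg` is the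
degree of the canonical divisor, and `LiesOver _ w p r` says that the point `w` lies over `p` with the
ramification index `r`. -/
structure LogCriterion (C : Fin n → IntermediateField k M) (G : Subgroup (M ≃ₐ[k] M))
    (S : ∀ i, Finset (Place k ↥(C i ⊓ fixedField G)))
    (α : Fin n → ℚ) (δ : ∀ i, Place k ↥(C i ⊓ fixedField G) → ℚ) : Prop where
  pos : ∀ i, 0 < α i
  le_one : ∀ i p, δ i p ≤ 1
  degree : ∀ i, ∃ T : Finset (Place k ↥(C i ⊓ fixedField G)), (∀ p ∉ T, δ i p = 0) ∧
    0 < (canDeg k ↥(C i ⊓ fixedField G) : ℚ) + ∑ p ∈ T, δ i p
  rotation : ∀ g ∈ G, ∀ ζ : k, IsPrimitiveRoot ζ (orderOf g) →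
    ∀ (w : ∀ i, Place k (C i)) (p : ∀ i, Place k ↥(C i ⊓ fixedField G)) (r c : Fin n → ℕ),
      (∀ i, LiesOver (inf_le_left : C i ⊓ fixedField G ≤ C i) (w i) (p i) (r i)) →
      (∀ i, p i ∉ S i) → (∀ i, 0 < c i) → (∀ i, Rotates (C i) g (w i) (ζ ^ c i)) →
      (∑ i, α i) * orderOf g ≤ ∑ i, α i * (r i * (1 - δ i (p i)) * c i)

/-- The rational map from the affine variety `X` with the coordinate functions `x` and the function
field `L` to the quotient of the product of the curves is a morphism on the normalization of `X`, and
it avoids the fibres at infinity: the functions on the curves `C i / G` without poles outside of `S i`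
are integral over the coordinate ring `k[x]` of `X`. -/
def AvoidsInfinity (C : Fin n → IntermediateField k M) (G : Subgroup (M ≃ₐ[k] M))
    (S : ∀ i, Finset (Place k ↥(C i ⊓ fixedField G)))
    {L : Type} [Field L] [Algebra k L] [Algebra (fixedField G) L] {m : ℕ} (x : Fin m → L) : Prop :=
  ∀ i, ∀ z : ↥(C i ⊓ fixedField G), (∀ p ∉ S i, p.Reg z) →
    IsIntegral (Algebra.adjoin k (Set.range x)) (algebraMap (fixedField G) L ⟨z, z.2.2⟩)

/-- **The Lang-Vojta conjecture for the quotients of products of open curves.** `M` is the function
field of the product `V` of the `n` smooth projective curves with the function fields `C i` over the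
algebraically closed field `k` of characteristic zero, `G` a finite group of automorphisms of `V` which
preserves the factors, for which the criterion is true, and `X` an affine variety, with the function
field `L` and the coordinate functions `x`, with a generically finite dominant morphism to `V / G`
(or a morphism from its normalization) which avoids the fibres over the points of the sets `S i`. Then
`X` is of log general type, and the degrees of the curves in `X` outside a proper closed subset are
bounded linearly by their Euler characteristic. -/
theorem result [IsAlgClosed k] [CharZero k] (hM : Algebra.trdeg k M = n)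
    (C : Fin n → IntermediateField k M) [hC : ∀ i, IsFF k (C i)] (hsup : ⨆ i, C i = ⊤)
    (G : Subgroup (M ≃ₐ[k] M)) [Finite G] (hG : ∀ g ∈ G, ∀ i, ∀ z ∈ C i, g z ∈ C i)
    (S : ∀ i, Finset (Place k ↥(C i ⊓ fixedField G)))
    (α : Fin n → ℚ) (δ : ∀ i, Place k ↥(C i ⊓ fixedField G) → ℚ) (h : LogCriterion C G S α δ)
    {L : Type} [Field L] [Algebra k L] [Algebra (fixedField G) L]
    [IsScalarTower k (fixedField G) L] [FiniteDimensional (fixedField G) L]
    {m : ℕ} {x : Fin m → L} (hL : adjoin k (Set.range x) = ⊤) (hX : AvoidsInfinity C G S x) :
    LogGeneralType k L n (fun P => ∃ j, ¬ P.Reg (x j)) ∧ LangVojtaBound k x := by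
  choose T hT hdeg using h.degree
  refine ⟨Pool.Agent.K4H25.LG.log_general_quo C hM hsup G hG h.pos h.le_one h.rotation T hT hdeg _
    fun w hw i z hz => ?_,
    Pool.Agent.K4H25.LG.lang_vojta C hsup G hG h.pos h.le_one h.rotation T hT hdeg hL hX⟩
  push Not at hw
  exact Pool.Agent.K4H65.DM.sp_integral (Pool.Agent.K4H65.DM.Sp.idt k L) (fun j => rfl) (hX i z hz)
    rfl w hw

end Pool.Agent.Results.MP_70ba79_ag.OpenProductQuotients
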